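import Pool.Agent.BLP.StmtsD

namespace Pool.Agent.BLP.H69

open MeasureTheory ProbabilityTheory Filter Topology Finset
open scoped ENNReal

theorem d_inv : InvStmt := by
  intro X _ μ B h Q m k
  obtain ⟨T, hT, hT'⟩ := h.lv m
  obtain ⟨U, hU, hU'⟩ := h.tr (k : ℚ)
  have h1 : μ {x | Q (shT k (shL m (B x)))} = μ {x | Q (shT k (B (T x)))} := by
    apply measure_congr
    filter_upwards [hT'] with x hx
    apply propext
    change Q (shT k (shL m (B x))) ↔ Q (shT k (B (T x)))
    rw [hx]
  have h2 : μ {x | Q (shT k (B (T x)))} ≤ μ {x | Q (shT k (B x))} := by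
    have := Measure.le_map_apply hT.measurable.aemeasurable (μ := μ) {x | Q (shT k (B x))}
    rw [hT.map_eq] at this
    exact this
  have h3 : μ {x | Q (shT k (B x))} = μ {x | Q (B (U x))} := by
    apply measure_congr
    filter_upwards [hU'] with x hx
    apply propext
    change Q (shT k (B x)) ↔ Q (B (U x))
    rw [hx]
    norm_num
  have h4 : μ {x | Q (B (U x))} ≤ μ {x | Q (B x)} := by
    have := Measure.le_map_apply hU.measurable.aemeasurable (μ := μ) {x | Q (B x)}
    rw [hU.map_eq] at this
    exact this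
  rw [h1]
  exact h2.trans (h3.le.trans h4)

end Pool.Agent.BLP.H69
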